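import Mathlib

namespace Pool.Agent.Results.MP_1780a9_co.Alteration

/-- The Euclidean plane. -/
abbrev Plane : Type := EuclideanSpace ℝ (Fin 2)

/-- The straight line through `p` with direction `v` (used with `v ≠ 0`). -/
def line (p v : Plane) : Set Plane := {x | ∃ t : ℝ, x = p + t • v}

/-- There are `n` closed disks of radius `r`, each contained in the closed unit disk (a family of
centres; disks may overlap), such that every straight line meets at most `k` of the `n` disks. -/
def Good (k n : ℕ) (r : ℝ) : Prop :=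
  ∃ c : Fin n → Plane, (∀ i, Metric.closedBall (c i) r ⊆ Metric.closedBall 0 1) ∧
    ∀ p v : Plane, v ≠ 0 →
      Nat.card {i : Fin n // (Metric.closedBall (c i) r ∩ line p v).Nonempty} ≤ k

/-- `r_k(n)`: the supremum of all `r > 0` for which such `n` disks exist. -/
noncomputable def rk (k n : ℕ) : ℝ := sSup {r : ℝ | 0 < r ∧ Good k n r}

section count

variable {M : ℕ}

/-- coordinates of a grid point in the unit square -/
noncomputable def X (P : Fin M × Fin M) : ℝ := (P.1.val : ℝ) / M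
noncomputable def Y (P : Fin M × Fin M) : ℝ := (P.2.val : ℝ) / M

/-- all the points are near one non-vertical line -/
def BadX {m : ℕ} (ρ : ℝ) (t : Fin m → Fin M × Fin M) : Prop :=
  ∃ α β : ℝ, ∀ l, |Y (t l) - α * X (t l) - β| ≤ ρ

theorem card_interval (a b : ℝ) (hab : a ≤ b) (s : Finset (Fin M))
    (hs : ∀ i ∈ s, a ≤ (i.val : ℝ) ∧ (i.val : ℝ) ≤ b) : (s.card : ℝ) ≤ b - a + 1 := by
  have h1 : s.card ≤ (Finset.Icc ⌈a⌉ ⌊b⌋).card := by
    apply Finset.card_le_card_of_injOn (fun i => (i.val : ℤ))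
    · intro i hi
      have := hs i (Finset.mem_coe.1 hi)
      rw [Finset.mem_coe, Finset.mem_Icc]
      exact ⟨Int.ceil_le.2 (by exact_mod_cast this.1), Int.le_floor.2 (by exact_mod_cast this.2)⟩
    · intro i _ j _ h
      apply Fin.ext
      have h' : (i.val : ℤ) = (j.val : ℤ) := h
      exact_mod_cast h'
  rw [Int.card_Icc] at h1
  have h2 : (((⌊b⌋ + 1 - ⌈a⌉).toNat : ℕ) : ℝ) ≤ b - a + 1 := by
    rcases le_total 0 (⌊b⌋ + 1 - ⌈a⌉) with h | h
    · have h3 : (((⌊b⌋ + 1 - ⌈a⌉).toNat : ℤ) : ℝ) = ((⌊b⌋ + 1 - ⌈a⌉ : ℤ) : ℝ) := by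
        rw [Int.toNat_of_nonneg h]
      have h4 : (((⌊b⌋ + 1 - ⌈a⌉).toNat : ℕ) : ℝ) = ((⌊b⌋ + 1 - ⌈a⌉ : ℤ) : ℝ) := by
        rw [← h3]; norm_cast
      rw [h4]
      push_cast
      have := Int.floor_le b
      have := Int.le_ceil a
      linarith
    · rw [Int.toNat_of_nonpos h]
      push_cast
      linarith
  calc (s.card : ℝ) ≤ (((⌊b⌋ + 1 - ⌈a⌉).toNat : ℕ) : ℝ) := by exact_mod_cast h1
    _ ≤ _ := h2

/-- interpolation between two grid points -/
noncomputable def Li (P Q : Fin M × Fin M) (x : ℝ) : ℝ :=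
  if X P = X Q then Y P else Y P + (Y Q - Y P) * ((x - X P) / (X Q - X P))

theorem near_Li {ρ : ℝ} {α β : ℝ} {P Q R : Fin M × Fin M}
    (hP : |Y P - α * X P - β| ≤ ρ) (hQ : |Y Q - α * X Q - β| ≤ ρ)
    (hR : |Y R - α * X R - β| ≤ ρ) (h1 : X P ≤ X R) (h2 : X R ≤ X Q) :
    |Y R - Li P Q (X R)| ≤ 2 * ρ := by
  rw [abs_le] at hP hQ hR ⊢
  unfold Li
  split_ifs with h
  · have h3 : X R = X P := le_antisymm (h2.trans h.ge) h1
    rw [h3] at hR
    constructor <;> linarith [hP.1, hP.2, hR.1, hR.2]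
  · have h3 : 0 < X Q - X P := by
      have : X P ≠ X Q := h
      have := lt_of_le_of_ne (h1.trans h2) this
      linarith
    set s := (X R - X P) / (X Q - X P) with hs
    have hs0 : 0 ≤ s := div_nonneg (by linarith) h3.le
    have hs1 : s ≤ 1 := by rw [hs, div_le_one h3]; linarith
    have hx : X R = X P + s * (X Q - X P) := by
      rw [hs, div_mul_cancel₀ _ h3.ne']; ring
    have e : Y R - (Y P + (Y Q - Y P) * s) = (Y R - α * X R - β) -
        ((1 - s) * (Y P - α * X P - β) + s * (Y Q - α * X Q - β)) := by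
      rw [hx]; ring
    rw [e]
    have a1 : (1 - s) * (Y P - α * X P - β) ≤ (1 - s) * ρ :=
      mul_le_mul_of_nonneg_left hP.2 (by linarith)
    have a2 : (1 - s) * (-ρ) ≤ (1 - s) * (Y P - α * X P - β) :=
      mul_le_mul_of_nonneg_left hP.1 (by linarith)
    have a3 : s * (Y Q - α * X Q - β) ≤ s * ρ := mul_le_mul_of_nonneg_left hQ.2 hs0
    have a4 : s * (-ρ) ≤ s * (Y Q - α * X Q - β) := mul_le_mul_of_nonneg_left hQ.1 hs0
    constructor <;> nlinarith [hR.1, hR.2]

open Classical in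
/-- grid points near the line through `P` and `Q` -/
noncomputable def St (ρ : ℝ) (P Q : Fin M × Fin M) : Finset (Fin M × Fin M) :=
  Finset.univ.filter fun R => |Y R - Li P Q (X R)| ≤ 2 * ρ

theorem card_St {ρ : ℝ} (hρ : 0 ≤ ρ) (hM : 0 < M) (P Q : Fin M × Fin M) :
    ((St ρ P Q).card : ℝ) ≤ M * (4 * ρ * M + 1) := by
  classical
  have hM' : (0:ℝ) < M := by exact_mod_cast hM
  have h1 : (St ρ P Q).card = ∑ i : Fin M, ((Finset.univ : Finset (Fin M)).filter
      (fun j => |Y (i, j) - Li P Q (X (i, j))| ≤ 2 * ρ)).card := by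
    unfold St
    rw [Finset.card_filter, ← Finset.univ_product_univ, Finset.sum_product]
    apply Finset.sum_congr rfl
    intro i _
    rw [Finset.card_filter]
  rw [h1]
  push_cast
  calc ∑ i : Fin M, (((Finset.univ : Finset (Fin M)).filter
      (fun j => |Y (i, j) - Li P Q (X (i, j))| ≤ 2 * ρ)).card : ℝ)
      ≤ ∑ i : Fin M, (4 * ρ * M + 1) := by
        apply Finset.sum_le_sum
        intro i _
        set L : ℝ := Li P Q ((i.val : ℝ) / M) with hL
        have := card_interval (M := M) (M * (L - 2 * ρ)) (M * (L + 2 * ρ)) (by nlinarith)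
          ((Finset.univ : Finset (Fin M)).filter
            (fun j => |Y (i, j) - Li P Q (X (i, j))| ≤ 2 * ρ)) (by
            intro j hj
            have h2 := (Finset.mem_filter.1 hj).2
            have h3 : |(j.val : ℝ) / M - L| ≤ 2 * ρ := h2
            rw [abs_le] at h3
            have h4 : (j.val : ℝ) = M * ((j.val : ℝ) / M) := by
              rw [mul_div_cancel₀ _ hM'.ne']
            rw [h4]
            constructor
            · exact mul_le_mul_of_nonneg_left (by linarith [h3.1]) hM'.le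
            · exact mul_le_mul_of_nonneg_left (by linarith [h3.2]) hM'.le)
        refine this.trans (le_of_eq (by ring))
    _ = M * (4 * ρ * M + 1) := by
        rw [Finset.sum_const, Finset.card_univ, Fintype.card_fin, nsmul_eq_mul]

/-- two distinct indices with extreme first coordinates -/
theorem exists_extreme {m : ℕ} (x : Fin (m + 2) → ℝ) :
    ∃ i j, i ≠ j ∧ ∀ l, x i ≤ x l ∧ x l ≤ x j := by
  obtain ⟨i, hi⟩ := Finite.exists_min x
  obtain ⟨j, hj⟩ := Finite.exists_max x
  by_cases hij : i = j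
  · subst hij
    have h0 : ∀ l, x l = x i := fun l => le_antisymm (hj l) (hi l)
    refine ⟨0, 1, by simp, fun l => ?_⟩
    rw [h0 l, h0 0, h0 1]
    exact ⟨le_rfl, le_rfl⟩
  · exact ⟨i, j, hij, fun l => ⟨hi l, hj l⟩⟩

open Classical in
theorem card_badX {m : ℕ} {ρ : ℝ} (hρ : 0 ≤ ρ) (hM : 0 < M) :
    ((Finset.univ.filter fun t : Fin (m + 2) → Fin M × Fin M => BadX ρ t).card : ℝ) ≤
      ((m:ℝ) + 2) ^ 2 * ((M:ℝ) ^ 4 * ((M:ℝ) * (4 * ρ * M + 1)) ^ m) := by
  set A : Fin (m + 2) × Fin (m + 2) → (Fin M × Fin M) × (Fin M × Fin M) →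
      Finset (Fin (m + 2) → Fin M × Fin M) := fun ij PQ =>
    Fintype.piFinset (fun l => if l = ij.1 then {PQ.1} else if l = ij.2 then {PQ.2} else
      St ρ PQ.1 PQ.2) with hA
  have hsub : (Finset.univ.filter fun t : Fin (m + 2) → Fin M × Fin M => BadX ρ t) ⊆
      (Finset.univ.filter fun ij : Fin (m + 2) × Fin (m + 2) => ij.1 ≠ ij.2).biUnion fun ij =>
        (Finset.univ : Finset ((Fin M × Fin M) × (Fin M × Fin M))).biUnion fun PQ => A ij PQ := by
    intro t ht
    obtain ⟨α, β, hab⟩ := (Finset.mem_filter.1 ht).2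
    obtain ⟨i, j, hij, hx⟩ := exists_extreme fun l => X (t l)
    rw [Finset.mem_biUnion]
    refine ⟨(i, j), Finset.mem_filter.2 ⟨Finset.mem_univ _, hij⟩, ?_⟩
    rw [Finset.mem_biUnion]
    refine ⟨(t i, t j), Finset.mem_univ _, ?_⟩
    rw [hA]
    simp only [Fintype.mem_piFinset]
    intro l
    split_ifs with h1 h2
    · rw [h1]; exact Finset.mem_singleton_self _
    · rw [h2]; exact Finset.mem_singleton_self _
    · exact Finset.mem_filter.2 ⟨Finset.mem_univ _,
        near_Li (hab i) (hab j) (hab l) (hx l).1 (hx l).2⟩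
  have hcA : ∀ ij : Fin (m + 2) × Fin (m + 2), ij.1 ≠ ij.2 → ∀ PQ,
      ((A ij PQ).card : ℝ) ≤ ((M:ℝ) * (4 * ρ * M + 1)) ^ m := by
    rintro ⟨i, j⟩ hij PQ
    have hij' : i ≠ j := hij
    rw [hA]
    simp only [Fintype.card_piFinset]
    have h1 : ∏ l : Fin (m + 2), (if l = i then {PQ.1} else if l = j then {PQ.2} else
        St ρ PQ.1 PQ.2 : Finset (Fin M × Fin M)).card = (St ρ PQ.1 PQ.2).card ^ m := by
      have h2 : ∀ l : Fin (m + 2), (if l = i then {PQ.1} else if l = j then {PQ.2} else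
        St ρ PQ.1 PQ.2 : Finset (Fin M × Fin M)).card =
          if l ∈ ({i, j} : Finset (Fin (m + 2))) then 1 else (St ρ PQ.1 PQ.2).card := by
        intro l
        by_cases h3 : l = i
        · simp [h3]
        · by_cases h4 : l = j
          · subst h4
            simp [h3]
          · simp [h3, h4]
      rw [Finset.prod_congr rfl fun l _ => h2 l, Finset.prod_ite, Finset.prod_const_one, one_mul,
        Finset.prod_const]
      congr 1
      have h5 : (Finset.univ.filter fun l : Fin (m + 2) => l ∉ ({i, j} : Finset (Fin (m + 2)))) =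
          Finset.univ \ {i, j} := by
        ext l; simp
      rw [h5, Finset.card_sdiff_of_subset (Finset.subset_univ _), Finset.card_univ,
        Fintype.card_fin, Finset.card_pair hij']
      rfl
    rw [h1]
    push_cast
    exact pow_le_pow_left₀ (by positivity) (card_St hρ hM _ _) _
  have hB : (0:ℝ) ≤ ((M:ℝ) * (4 * ρ * M + 1)) ^ m := by positivity
  calc ((Finset.univ.filter fun t : Fin (m + 2) → Fin M × Fin M => BadX ρ t).card : ℝ)
      ≤ (((Finset.univ.filter fun ij : Fin (m + 2) × Fin (m + 2) => ij.1 ≠ ij.2).biUnion fun ij =>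
        (Finset.univ : Finset ((Fin M × Fin M) × (Fin M × Fin M))).biUnion
          fun PQ => A ij PQ).card : ℝ) := by
        exact_mod_cast Finset.card_le_card hsub
    _ ≤ ∑ ij ∈ (Finset.univ.filter fun ij : Fin (m + 2) × Fin (m + 2) => ij.1 ≠ ij.2),
        ∑ PQ : (Fin M × Fin M) × (Fin M × Fin M), ((A ij PQ).card : ℝ) := by
        have h1 := Finset.card_biUnion_le
          (s := Finset.univ.filter fun ij : Fin (m + 2) × Fin (m + 2) => ij.1 ≠ ij.2)
          (t := fun ij => (Finset.univ : Finset ((Fin M × Fin M) × (Fin M × Fin M))).biUnion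
            fun PQ => A ij PQ)
        have h2 : ∀ ij : Fin (m + 2) × Fin (m + 2),
            ((Finset.univ : Finset ((Fin M × Fin M) × (Fin M × Fin M))).biUnion
              fun PQ => A ij PQ).card ≤ ∑ PQ, (A ij PQ).card := fun ij => Finset.card_biUnion_le
        have h3 := h1.trans (Finset.sum_le_sum fun ij _ => h2 ij)
        exact_mod_cast h3
    _ ≤ ∑ ij ∈ (Finset.univ.filter fun ij : Fin (m + 2) × Fin (m + 2) => ij.1 ≠ ij.2),
        ∑ PQ : (Fin M × Fin M) × (Fin M × Fin M), ((M:ℝ) * (4 * ρ * M + 1)) ^ m := by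
        apply Finset.sum_le_sum
        intro ij hij
        apply Finset.sum_le_sum
        intro PQ _
        exact hcA ij (Finset.mem_filter.1 hij).2 PQ
    _ ≤ ∑ ij : Fin (m + 2) × Fin (m + 2),
        ∑ PQ : (Fin M × Fin M) × (Fin M × Fin M), ((M:ℝ) * (4 * ρ * M + 1)) ^ m := by
        apply Finset.sum_le_sum_of_subset_of_nonneg (Finset.filter_subset _ _)
        intro ij _ _
        exact Finset.sum_nonneg fun _ _ => hB
    _ = ((m:ℝ) + 2) ^ 2 * ((M:ℝ) ^ 4 * ((M:ℝ) * (4 * ρ * M + 1)) ^ m) := by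
        simp only [Finset.sum_const, Finset.card_univ, Fintype.card_prod, Fintype.card_fin,
          nsmul_eq_mul]
        push_cast
        ring

/-- near some line -/
def Bad {m : ℕ} (ρ : ℝ) (t : Fin m → Fin M × Fin M) : Prop :=
  BadX ρ t ∨ BadX ρ (fun l => (t l).swap)

open Classical in
theorem card_bad {m : ℕ} {ρ : ℝ} (hρ : 0 ≤ ρ) (hM : 0 < M) :
    ((Finset.univ.filter fun t : Fin (m + 2) → Fin M × Fin M => Bad ρ t).card : ℝ) ≤
      2 * (((m:ℝ) + 2) ^ 2 * ((M:ℝ) ^ 4 * ((M:ℝ) * (4 * ρ * M + 1)) ^ m)) := by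
  have h1 : (Finset.univ.filter fun t : Fin (m + 2) → Fin M × Fin M => Bad ρ t) =
      (Finset.univ.filter fun t : Fin (m + 2) → Fin M × Fin M => BadX ρ t) ∪
      (Finset.univ.filter fun t : Fin (m + 2) → Fin M × Fin M => BadX ρ fun l => (t l).swap) := by
    ext t; simp [Bad]
  have h2 : (Finset.univ.filter fun t : Fin (m + 2) → Fin M × Fin M =>
      BadX ρ fun l => (t l).swap).card =
      (Finset.univ.filter fun t : Fin (m + 2) → Fin M × Fin M => BadX ρ t).card := by
    apply Finset.card_nbij' (fun t l => (t l).swap) (fun t l => (t l).swap)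
    · intro t ht
      have := (Finset.mem_filter.1 (Finset.mem_coe.1 ht)).2
      exact Finset.mem_coe.2 (Finset.mem_filter.2 ⟨Finset.mem_univ _, this⟩)
    · intro t ht
      have := (Finset.mem_filter.1 (Finset.mem_coe.1 ht)).2
      refine Finset.mem_coe.2 (Finset.mem_filter.2 ⟨Finset.mem_univ _, ?_⟩)
      simpa using this
    · intro t _; funext l; simp
    · intro t _; funext l; simp
  rw [h1]
  have h3 := Finset.card_union_le
    (Finset.univ.filter fun t : Fin (m + 2) → Fin M × Fin M => BadX ρ t)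
    (Finset.univ.filter fun t : Fin (m + 2) → Fin M × Fin M => BadX ρ fun l => (t l).swap)
  rw [h2] at h3
  have h4 := card_badX (M := M) (m := m) hρ hM
  have h5 : (((Finset.univ.filter fun t : Fin (m + 2) → Fin M × Fin M => BadX ρ t) ∪
      (Finset.univ.filter fun t : Fin (m + 2) → Fin M × Fin M =>
        BadX ρ fun l => (t l).swap)).card : ℝ) ≤
      ((Finset.univ.filter fun t : Fin (m + 2) → Fin M × Fin M => BadX ρ t).card : ℝ) +
      ((Finset.univ.filter fun t : Fin (m + 2) → Fin M × Fin M => BadX ρ t).card : ℝ) := by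
    exact_mod_cast h3
  linarith

end count

section average

open Classical in
/-- extensions of restricted tuples -/
theorem card_ext {K N : ℕ} {G : Type} [Fintype G] (B : (Fin K → G) → Prop)
    (e : Fin K ↪ Fin N) :
    (Finset.univ.filter fun f : Fin N → G => B (f ∘ e)).card ≤
      (Finset.univ.filter fun t : Fin K → G => B t).card * Fintype.card G ^ (N - K) := by
  have hc : Fintype.card {i : Fin N // i ∉ Set.range e} = N - K := by
    rw [Fintype.card_subtype_compl]
    simp only [Fintype.card_fin]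
    congr 1
    have := Set.card_range_of_injective e.injective
    rw [Fintype.card_fin] at this
    exact (Fintype.card_congr (Equiv.refl _)).trans this
  have h1 : (Finset.univ.filter fun f : Fin N → G => B (f ∘ e)).card ≤
      ((Finset.univ.filter fun t : Fin K → G => B t) ×ˢ
        (Finset.univ : Finset ({i : Fin N // i ∉ Set.range e} → G))).card := by
    apply Finset.card_le_card_of_injOn
      (fun f => (f ∘ e, fun i : {i : Fin N // i ∉ Set.range e} => f i.1))
    · intro f hf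
      have := (Finset.mem_filter.1 (Finset.mem_coe.1 hf)).2
      rw [Finset.mem_coe, Finset.mem_product]
      exact ⟨Finset.mem_filter.2 ⟨Finset.mem_univ _, this⟩, Finset.mem_univ _⟩
    · intro f _ g _ h
      have h1 := congrArg Prod.fst h
      have h2 := congrArg Prod.snd h
      funext i
      by_cases hi : i ∈ Set.range e
      · obtain ⟨j, rfl⟩ := hi
        exact congrFun h1 j
      · exact congrFun h2 ⟨i, hi⟩
  rw [Finset.card_product, Finset.card_univ, Fintype.card_fun, hc] at h1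
  exact h1

open Classical in
/-- there is a choice with few bad tuples -/
theorem exists_few {K N : ℕ} {G : Type} [Fintype G] [Nonempty G] (hKN : K ≤ N)
    (B : (Fin K → G) → Prop) (b : ℝ)
    (hb : (N:ℝ) ^ K * ((Finset.univ.filter fun t : Fin K → G => B t).card : ℝ) ≤
      b * (Fintype.card G : ℝ) ^ K) :
    ∃ f : Fin N → G, ((Finset.univ.filter fun e : Fin K ↪ Fin N => B (f ∘ e)).card : ℝ) ≤ b := by
  by_contra hcon
  push Not at hcon
  have hG : (0:ℝ) < Fintype.card G := by exact_mod_cast Fintype.card_pos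
  have h1 : b * (Fintype.card G : ℝ) ^ N < ∑ f : Fin N → G,
      ((Finset.univ.filter fun e : Fin K ↪ Fin N => B (f ∘ e)).card : ℝ) := by
    calc b * (Fintype.card G : ℝ) ^ N = ∑ f : Fin N → G, b := by
          rw [Finset.sum_const, Finset.card_univ, Fintype.card_fun, Fintype.card_fin,
            nsmul_eq_mul]
          push_cast
          ring
      _ < _ := Finset.sum_lt_sum_of_nonempty Finset.univ_nonempty fun f _ => hcon f
  have h2 : ∑ f : Fin N → G, ((Finset.univ.filter fun e : Fin K ↪ Fin N => B (f ∘ e)).card) =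
      ∑ e : Fin K ↪ Fin N, (Finset.univ.filter fun f : Fin N → G => B (f ∘ e)).card := by
    simp only [Finset.card_filter]
    rw [Finset.sum_comm]
  have h3 : ∑ e : Fin K ↪ Fin N, (Finset.univ.filter fun f : Fin N → G => B (f ∘ e)).card ≤
      N ^ K * ((Finset.univ.filter fun t : Fin K → G => B t).card *
        Fintype.card G ^ (N - K)) := by
    calc _ ≤ ∑ e : Fin K ↪ Fin N, ((Finset.univ.filter fun t : Fin K → G => B t).card *
          Fintype.card G ^ (N - K)) := Finset.sum_le_sum fun e _ => card_ext B e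
      _ = Fintype.card (Fin K ↪ Fin N) * _ := by
          rw [Finset.sum_const, Finset.card_univ, smul_eq_mul]
      _ ≤ _ := by
          apply Nat.mul_le_mul_right
          have h4 : Fintype.card (Fin K ↪ Fin N) ≤ Fintype.card (Fin K → Fin N) :=
            Fintype.card_le_of_injective (fun e => (e : Fin K → Fin N)) DFunLike.coe_injective
          rwa [Fintype.card_fun, Fintype.card_fin, Fintype.card_fin] at h4
  rw [← h2] at h3
  have h4 : ∑ f : Fin N → G, ((Finset.univ.filter fun e : Fin K ↪ Fin N => B (f ∘ e)).card : ℝ) ≤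
      (N:ℝ) ^ K * (((Finset.univ.filter fun t : Fin K → G => B t).card : ℝ) *
        (Fintype.card G : ℝ) ^ (N - K)) := by exact_mod_cast h3
  have h5 : (Fintype.card G : ℝ) ^ N = (Fintype.card G : ℝ) ^ K * (Fintype.card G : ℝ) ^ (N - K) := by
    rw [← pow_add, Nat.add_sub_cancel' hKN]
  have h6 := mul_le_mul_of_nonneg_right hb (pow_nonneg hG.le (N - K))
  rw [h5] at h1
  have h7 : b * ((Fintype.card G : ℝ) ^ K * (Fintype.card G : ℝ) ^ (N - K)) =
      b * (Fintype.card G : ℝ) ^ K * (Fintype.card G : ℝ) ^ (N - K) := by ring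
  have h8 : (N:ℝ) ^ K * (((Finset.univ.filter fun t : Fin K → G => B t).card : ℝ) *
        (Fintype.card G : ℝ) ^ (N - K)) = (N:ℝ) ^ K *
        ((Finset.univ.filter fun t : Fin K → G => B t).card : ℝ) *
        (Fintype.card G : ℝ) ^ (N - K) := by ring
  linarith

end average

section geom

/-- centre of the disk of a grid point -/
noncomputable def ctr {M : ℕ} (P : Fin M × Fin M) : Plane := !₂[X P / 2, Y P / 2]

theorem XY_mem {M : ℕ} (P : Fin M × Fin M) : (0 ≤ X P ∧ X P ≤ 1) ∧ (0 ≤ Y P ∧ Y P ≤ 1) := by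
  have hM : 0 < M := lt_of_le_of_lt (Nat.zero_le _) P.1.2
  have hM' : (0:ℝ) < M := by exact_mod_cast hM
  unfold X Y
  have h1 : (P.1.val : ℝ) ≤ M := by exact_mod_cast P.1.2.le
  have h2 : (P.2.val : ℝ) ≤ M := by exact_mod_cast P.2.2.le
  exact ⟨⟨by positivity, (div_le_one hM').2 h1⟩, ⟨by positivity, (div_le_one hM').2 h2⟩⟩

theorem norm_ctr {M : ℕ} (P : Fin M × Fin M) : ‖ctr P‖ ≤ 3 / 4 := by
  obtain ⟨⟨h1, h2⟩, ⟨h3, h4⟩⟩ := XY_mem P
  rw [EuclideanSpace.norm_eq]
  apply Real.sqrt_le_iff.2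
  refine ⟨by norm_num, ?_⟩
  rw [Fin.sum_univ_two]
  simp only [ctr, Real.norm_eq_abs, sq_abs]
  show (X P / 2) ^ 2 + (Y P / 2) ^ 2 ≤ _
  nlinarith

theorem ctr_ball {M : ℕ} (P : Fin M × Fin M) {r : ℝ} (hr : r ≤ 1 / 4) :
    Metric.closedBall (ctr P) r ⊆ Metric.closedBall 0 1 := by
  apply Metric.closedBall_subset_closedBall'
  rw [dist_zero_right]
  linarith [norm_ctr P]

theorem coord_le (x : Plane) (i : Fin 2) : |x i| ≤ ‖x‖ := by
  have := PiLp.norm_apply_le x i
  rwa [Real.norm_eq_abs] at this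

/-- disks meeting a line give near-collinear grid points -/
theorem bad_of_line {M m : ℕ} {r : ℝ} (t : Fin m → Fin M × Fin M) (p v : Plane) (hv : v ≠ 0)
    (h : ∀ l, (Metric.closedBall (ctr (t l)) r ∩ line p v).Nonempty) : Bad (4 * r) t := by
  -- points of the line
  have h1 : ∀ l, ∃ s : ℝ, |X (t l) / 2 - (p 0 + s * v 0)| ≤ r ∧
      |Y (t l) / 2 - (p 1 + s * v 1)| ≤ r := by
    intro l
    obtain ⟨x, hx, s, rfl⟩ := h l
    have hd : ‖ctr (t l) - (p + s • v)‖ ≤ r := by
      rw [← dist_eq_norm, dist_comm]; exact hx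
    exact ⟨s, (coord_le (ctr (t l) - (p + s • v)) 0).trans hd,
      (coord_le (ctr (t l) - (p + s • v)) 1).trans hd⟩
  rcases le_total |v 1| |v 0| with hle | hle
  · left
    have hv0 : v 0 ≠ 0 := by
      intro h0
      rw [h0, abs_zero] at hle
      have h1 : v 1 = 0 := abs_eq_zero.1 (le_antisymm hle (abs_nonneg _))
      apply hv
      ext i
      fin_cases i
      · exact h0
      · exact h1
    have ha : |v 1 / v 0| ≤ 1 := by
      rw [abs_div]
      exact (div_le_one (abs_pos.2 hv0)).2 hle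
    refine ⟨v 1 / v 0, 2 * (p 1 - v 1 / v 0 * p 0), fun l => ?_⟩
    obtain ⟨s, hs0, hs1⟩ := h1 l
    have hr : 0 ≤ r := (abs_nonneg _).trans hs0
    have e : Y (t l) - v 1 / v 0 * X (t l) - 2 * (p 1 - v 1 / v 0 * p 0) =
        2 * ((Y (t l) / 2 - (p 1 + s * v 1)) - v 1 / v 0 * (X (t l) / 2 - (p 0 + s * v 0))) := by
      field_simp
      ring
    rw [e, abs_mul, abs_two]
    have h3 := abs_sub (Y (t l) / 2 - (p 1 + s * v 1))
      (v 1 / v 0 * (X (t l) / 2 - (p 0 + s * v 0)))
    rw [abs_mul (v 1 / v 0)] at h3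
    have h4 : |v 1 / v 0| * |X (t l) / 2 - (p 0 + s * v 0)| ≤ 1 * r :=
      mul_le_mul ha hs0 (abs_nonneg _) zero_le_one
    linarith
  · right
    have hv0 : v 1 ≠ 0 := by
      intro h0
      rw [h0, abs_zero] at hle
      have h1 : v 0 = 0 := abs_eq_zero.1 (le_antisymm hle (abs_nonneg _))
      apply hv
      ext i
      fin_cases i
      · exact h1
      · exact h0
    have ha : |v 0 / v 1| ≤ 1 := by
      rw [abs_div]
      exact (div_le_one (abs_pos.2 hv0)).2 hle
    refine ⟨v 0 / v 1, 2 * (p 0 - v 0 / v 1 * p 1), fun l => ?_⟩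
    obtain ⟨s, hs0, hs1⟩ := h1 l
    have hr : 0 ≤ r := (abs_nonneg _).trans hs0
    show |X (t l) - v 0 / v 1 * Y (t l) - 2 * (p 0 - v 0 / v 1 * p 1)| ≤ 4 * r
    have e : X (t l) - v 0 / v 1 * Y (t l) - 2 * (p 0 - v 0 / v 1 * p 1) =
        2 * ((X (t l) / 2 - (p 0 + s * v 0)) - v 0 / v 1 * (Y (t l) / 2 - (p 1 + s * v 1))) := by
      field_simp
      ring
    rw [e, abs_mul, abs_two]
    have h3 := abs_sub (X (t l) / 2 - (p 0 + s * v 0))
      (v 0 / v 1 * (Y (t l) / 2 - (p 1 + s * v 1)))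
    rw [abs_mul (v 0 / v 1)] at h3
    have h4 : |v 0 / v 1| * |Y (t l) / 2 - (p 1 + s * v 1)| ≤ 1 * r :=
      mul_le_mul ha hs1 (abs_nonneg _) zero_le_one
    linarith

open Classical in
/-- deletion step -/
theorem good_of_few {M K n : ℕ} {r : ℝ} (hr : r ≤ 1 / 4) (f : Fin (2 * n) → Fin M × Fin M)
    (hf : (Finset.univ.filter fun e : Fin (K + 1) ↪ Fin (2 * n) => Bad (4 * r) (f ∘ e)).card ≤ n) :
    Good K n r := by
  set R : Finset (Fin (2 * n)) := (Finset.univ.filter fun e : Fin (K + 1) ↪ Fin (2 * n) =>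
    Bad (4 * r) (f ∘ e)).image fun e => e 0 with hR
  have hRc : R.card ≤ n := Finset.card_image_le.trans hf
  have hSc : n ≤ (Finset.univ \ R).card := by
    rw [Finset.card_sdiff_of_subset (Finset.subset_univ _), Finset.card_univ, Fintype.card_fin]
    omega
  obtain ⟨g⟩ : Nonempty (Fin n ↪ {i // i ∈ Finset.univ \ R}) := by
    apply Function.Embedding.nonempty_of_card_le
    rw [Fintype.card_fin, Fintype.card_coe]
    exact hSc
  refine ⟨fun i => ctr (f (g i).1), fun i => ctr_ball _ hr, fun p v hv => ?_⟩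
  by_contra hcon
  push Not at hcon
  obtain ⟨h⟩ : Nonempty (Fin (K + 1) ↪
      {i : Fin n // (Metric.closedBall (ctr (f (g i).1)) r ∩ line p v).Nonempty}) := by
    apply Function.Embedding.nonempty_of_card_le
    rw [Fintype.card_fin, ← Nat.card_eq_fintype_card]
    exact hcon
  set e : Fin (K + 1) ↪ Fin (2 * n) :=
    ⟨fun l => (g (h l).1).1, fun l l' hl => h.injective (Subtype.ext
      (g.injective (Subtype.ext hl)))⟩ with he
  have hbad : Bad (4 * r) (f ∘ e) := bad_of_line (f ∘ e) p v hv fun l => (h l).2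
  have h1 : e 0 ∈ R := Finset.mem_image.2 ⟨e, Finset.mem_filter.2 ⟨Finset.mem_univ _, hbad⟩, rfl⟩
  have h2 : e 0 ∉ R := (Finset.mem_sdiff.1 (g (h 0).1).2).2
  exact h2 h1

theorem good_le_one {k n : ℕ} (hn : 1 ≤ n) {r : ℝ} (hr : 0 < r) (h : Good k n r) : r ≤ 1 := by
  obtain ⟨c, hc, -⟩ := h
  set c0 := c ⟨0, hn⟩ with hc0
  set u : Plane := EuclideanSpace.single 0 1 with hu
  have hu1 : ‖u‖ = 1 := by rw [hu]; simp
  have h1 : c0 + r • u ∈ Metric.closedBall c0 r := by
    rw [Metric.mem_closedBall, dist_eq_norm, add_sub_cancel_left, norm_smul, hu1, mul_one,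
      Real.norm_eq_abs, abs_of_pos hr]
  have h2 : c0 - r • u ∈ Metric.closedBall c0 r := by
    rw [Metric.mem_closedBall, dist_eq_norm, sub_sub_cancel_left, norm_neg, norm_smul, hu1,
      mul_one, Real.norm_eq_abs, abs_of_pos hr]
  have h3 := hc _ h1
  have h4 := hc _ h2
  rw [Metric.mem_closedBall, dist_zero_right] at h3 h4
  have h5 : (2 * r) • u = (c0 + r • u) - (c0 - r • u) := by
    rw [two_mul, add_smul]; abel
  have h6 : ‖(2 * r) • u‖ = 2 * r := by
    rw [norm_smul, hu1, mul_one, Real.norm_eq_abs, abs_of_pos (by linarith)]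
  have h7 := norm_sub_le (c0 + r • u) (c0 - r • u)
  rw [← h5, h6] at h7
  linarith

end geom

/-- For every `k ≥ 3` there is `c > 0` with `r_k(n) ≥ c n^(-k/(k-1))` for all `n ≥ 1`. -/
theorem result (k : ℕ) (hk : 3 ≤ k) :
    ∃ c : ℝ, 0 < c ∧ ∀ n : ℕ, 1 ≤ n → c * (n : ℝ) ^ (-((k : ℝ) / ((k : ℝ) - 1))) ≤ rk k n := by
  classical
  obtain ⟨m, rfl⟩ : ∃ m, k = m + 1 := ⟨k - 1, by omega⟩
  have hm : 2 ≤ m := by omega
  set d : ℝ := 2 ^ (m + 3) * ((m:ℝ) + 2) ^ 2 * 5 ^ m with hd
  have hd1 : 1 ≤ d := by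
    have h1 : (1:ℝ) ≤ 2 ^ (m + 3) := one_le_pow₀ (by norm_num)
    have h2 : (1:ℝ) ≤ ((m:ℝ) + 2) ^ 2 := one_le_pow₀ (by
      have : (0:ℝ) ≤ m := by positivity
      linarith)
    have h3 : (1:ℝ) ≤ 5 ^ m := one_le_pow₀ (by norm_num)
    rw [hd]
    calc (1:ℝ) = 1 * 1 * 1 := by norm_num
      _ ≤ _ := by gcongr
  have hd0 : 0 < d := by linarith
  refine ⟨1 / (4 * d), by positivity, fun n hn => ?_⟩
  have hn0 : (0:ℝ) < n := by exact_mod_cast hn
  have hn1 : (1:ℝ) ≤ n := by exact_mod_cast hn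
  have hm0 : (0:ℝ) < m := by positivity
  set q : ℝ := (n : ℝ) ^ (-((((m + 1 : ℕ) : ℝ)) / (((m + 1 : ℕ) : ℝ) - 1))) with hq
  have hq0 : 0 < q := by positivity
  have hqm : q ^ m = 1 / (n:ℝ) ^ (m + 1) := by
    rw [hq, ← Real.rpow_natCast ((n:ℝ) ^ _), ← Real.rpow_mul hn0.le]
    have h1 : -((((m + 1 : ℕ) : ℝ)) / (((m + 1 : ℕ) : ℝ) - 1)) * (m:ℝ) = -((m + 1 : ℕ) : ℝ) := by
      push_cast
      rw [add_sub_cancel_right]
      field_simp
    rw [h1, Real.rpow_neg hn0.le, Real.rpow_natCast, one_div]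
  have hq1 : q ≤ 1 := by
    rw [hq]
    apply Real.rpow_le_one_of_one_le_of_nonpos hn1
    push_cast
    rw [neg_nonpos]
    apply div_nonneg <;> linarith
  set ρ : ℝ := q / d with hρ
  have hρ0 : 0 < ρ := by positivity
  have hρ1 : ρ ≤ 1 := by
    rw [hρ, div_le_one hd0]; linarith
  have hrr : 1 / (4 * d) * q = ρ / 4 := by rw [hρ]; field_simp
  rw [hrr]
  -- the grid
  obtain ⟨M, hM⟩ := exists_nat_ge (1 / ρ)
  have hMp : (0:ℝ) < M := lt_of_lt_of_le (by positivity) hM
  have hM0 : 0 < M := by exact_mod_cast hMp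
  have hMρ : 1 ≤ ρ * M := by
    rw [div_le_iff₀ hρ0] at hM
    linarith
  have : Nonempty (Fin M × Fin M) := ⟨(⟨0, hM0⟩, ⟨0, hM0⟩)⟩
  have hgood : Good (m + 1) n (ρ / 4) := by
    by_cases hsmall : m + 2 ≤ 2 * n
    · obtain ⟨f, hf⟩ := exists_few (K := m + 2) (N := 2 * n) (G := Fin M × Fin M) hsmall
        (fun t => Bad ρ t) (n:ℝ) (by
          have h1 := card_bad (M := M) (m := m) hρ0.le hM0
          have h2 : (M:ℝ) * (4 * ρ * M + 1) ≤ 5 * ρ * (M:ℝ) ^ 2 := by nlinarith
          have h3 : ((M:ℝ) * (4 * ρ * M + 1)) ^ m ≤ (5 * ρ * (M:ℝ) ^ 2) ^ m :=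
            pow_le_pow_left₀ (by positivity) h2 m
          have h4 : (5 * ρ * (M:ℝ) ^ 2) ^ m = 5 ^ m * ρ ^ m * ((M:ℝ) ^ 2) ^ m := by
            rw [mul_pow, mul_pow]
          have h5 : ρ ^ m ≤ 1 / (n:ℝ) ^ (m + 1) / d := by
            rw [hρ, div_pow, hqm]
            apply div_le_div_of_nonneg_left (by positivity) hd0
            exact le_self_pow₀ hd1 (by omega)
          have hcG : (Fintype.card (Fin M × Fin M) : ℝ) ^ (m + 2) =
              (M:ℝ) ^ 4 * ((M:ℝ) ^ 2) ^ m := by
            rw [Fintype.card_prod, Fintype.card_fin]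
            push_cast
            ring
          rw [hcG]
          calc (((2 * n : ℕ) : ℝ)) ^ (m + 2) * ((Finset.univ.filter
                fun t : Fin (m + 2) → Fin M × Fin M => Bad ρ t).card : ℝ)
              ≤ (((2 * n : ℕ) : ℝ)) ^ (m + 2) * (2 * (((m:ℝ) + 2) ^ 2 *
                ((M:ℝ) ^ 4 * ((M:ℝ) * (4 * ρ * M + 1)) ^ m))) := by gcongr
            _ ≤ (((2 * n : ℕ) : ℝ)) ^ (m + 2) * (2 * (((m:ℝ) + 2) ^ 2 *
                ((M:ℝ) ^ 4 * (5 ^ m * (1 / (n:ℝ) ^ (m + 1) / d) * ((M:ℝ) ^ 2) ^ m)))) := by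
                have h6 : ((M:ℝ) * (4 * ρ * M + 1)) ^ m ≤
                    5 ^ m * (1 / (n:ℝ) ^ (m + 1) / d) * ((M:ℝ) ^ 2) ^ m := by
                  refine h3.trans ?_
                  rw [h4]
                  gcongr
                gcongr
            _ = (n:ℝ) * ((M:ℝ) ^ 4 * ((M:ℝ) ^ 2) ^ m) := by
                rw [hd]
                push_cast
                field_simp
                ring)
      apply good_of_few (M := M) (K := m + 1) (by linarith) f
      have h7 : 4 * (ρ / 4) = ρ := by ring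
      rw [h7]
      exact_mod_cast hf
    · -- few disks
      refine ⟨fun _ => 0, fun i => ?_, fun p v hv => ?_⟩
      · exact Metric.closedBall_subset_closedBall (by linarith)
      · have h1 : Nat.card {i : Fin n // (Metric.closedBall (0 : Plane) (ρ / 4) ∩
            line p v).Nonempty} ≤ Nat.card (Fin n) :=
          Nat.card_le_card_of_injective _ Subtype.val_injective
        rw [Nat.card_fin] at h1
        show Nat.card {i : Fin n // (Metric.closedBall (0 : Plane) (ρ / 4) ∩
            line p v).Nonempty} ≤ m + 1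
        omega
  apply le_csSup
  · exact ⟨1, fun r hr => good_le_one hn hr.1 hr.2⟩
  · exact ⟨by positivity, hgood⟩

end Pool.Agent.Results.MP_1780a9_co.Alteration
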